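import Pool.Agent.Q175.BB.Eq

/-!
# MP_105042_an: the vanishing Morrey condition does not give Hölder regularity

For every `n ≥ 3` there are a quadratic growth nonlinearity `Q` (with `k = n`) and ONE map `u` which is a
weak solution of `Δ u = Q(x,u,∇u)` in the unit ball, lies in `W^{1,p}` for all `2 ≤ p < n`, has vanishing
Morrey quantities `M_p(x₀,r)(u) → 0` at EVERY point `x₀` of the ball and for EVERY `p ∈ [2,n)`, and is not
Hölder continuous in `B_{1/2}`.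
-/

set_option autoImplicit false

open MeasureTheory Filter Topology Set
open scoped ContDiff ENNReal

namespace Pool.Agent.Results.MP_105042_an.SingularPoint

variable {n k : ℕ}

/-- The open unit ball of `ℝⁿ`. -/
def B₁ (n : ℕ) : Set (EuclideanSpace ℝ (Fin n)) := Metric.ball 0 1

/-- `φ ∈ C_c^∞(B₁)`. -/
def IsTest (φ : EuclideanSpace ℝ (Fin n) → ℝ) : Prop :=
  ContDiff ℝ ∞ φ ∧ HasCompactSupport φ ∧ tsupport φ ⊆ B₁ n

/-- `G` is the weak gradient of `f` in `B₁`. -/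
def IsWeakGradient (f : EuclideanSpace ℝ (Fin n) → ℝ)
    (G : EuclideanSpace ℝ (Fin n) → EuclideanSpace ℝ (Fin n)) : Prop :=
  ∀ φ : EuclideanSpace ℝ (Fin n) → ℝ, IsTest φ → ∀ e : EuclideanSpace ℝ (Fin n),
    ∫ x in B₁ n, f x * fderiv ℝ φ x e = -∫ x in B₁ n, inner ℝ (G x) e * φ x

/-- `u ∈ W^{1,p}(B₁, ℝᵏ)` and the weak gradient of the component `u_i` is `G i`. -/
def MemW (p : ℝ) (u : EuclideanSpace ℝ (Fin n) → EuclideanSpace ℝ (Fin k))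
    (G : Fin k → EuclideanSpace ℝ (Fin n) → EuclideanSpace ℝ (Fin n)) : Prop :=
  ∀ i, MemLp (fun x => u x i) (ENNReal.ofReal p) (volume.restrict (B₁ n)) ∧
    MemLp (G i) (ENNReal.ofReal p) (volume.restrict (B₁ n)) ∧ IsWeakGradient (fun x => u x i) (G i)

/-- `u ∈ W^{1,2}(B₁, ℝᵏ)`, with gradient `(G i)_i`, is a weak solution of `Δ u = Q(x, u, ∇u)` in `B₁`
(the test map `φ ∈ C_c^∞(B₁, ℝᵏ)` is given by its components `Φ i`). -/
def IsWeakSolution (Q : EuclideanSpace ℝ (Fin n) → EuclideanSpace ℝ (Fin k) →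
      (Fin k → EuclideanSpace ℝ (Fin n)) → EuclideanSpace ℝ (Fin k))
    (u : EuclideanSpace ℝ (Fin n) → EuclideanSpace ℝ (Fin k))
    (G : Fin k → EuclideanSpace ℝ (Fin n) → EuclideanSpace ℝ (Fin n)) : Prop :=
  MemW 2 u G ∧
  ∀ Φ : Fin k → EuclideanSpace ℝ (Fin n) → ℝ, (∀ i, IsTest (Φ i)) →
    -∫ x in B₁ n, ∑ i, inner ℝ (G i x) (gradient (Φ i) x) =
      ∫ x in B₁ n, ∑ i, Q x (u x) (fun j => G j x) i * Φ i x

/-- The Morrey quantity `r^{p-n} ∫_{B_r(x₀)} |∇u|^p` (an element of `[0,∞]`). -/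
noncomputable def Morrey (p : ℝ) (G : Fin k → EuclideanSpace ℝ (Fin n) → EuclideanSpace ℝ (Fin n))
    (x₀ : EuclideanSpace ℝ (Fin n)) (r : ℝ) : ℝ≥0∞ :=
  ENNReal.ofReal (r ^ (p - n)) * ∫⁻ x in Metric.ball x₀ r, ENNReal.ofReal ((∑ i, ‖G i x‖ ^ 2) ^ (p / 2))

/-- `u` agrees a.e. on `B_{1/2}` with a Hölder continuous map. -/
def IsHolderHalf (u : EuclideanSpace ℝ (Fin n) → EuclideanSpace ℝ (Fin k)) : Prop :=
  ∃ (v : EuclideanSpace ℝ (Fin n) → EuclideanSpace ℝ (Fin k)) (C α : NNReal), 0 < α ∧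
    HolderOnWith C α v (Metric.ball 0 (1 / 2)) ∧ u =ᵐ[volume.restrict (Metric.ball 0 (1 / 2))] v

/-- **Q1 is false, for every `n ≥ 3` and every `p ∈ [2, n)` at once.** -/
theorem result (n : ℕ) (hn : 3 ≤ n) :
    ∃ (Q : EuclideanSpace ℝ (Fin n) → EuclideanSpace ℝ (Fin n) →
        (Fin n → EuclideanSpace ℝ (Fin n)) → EuclideanSpace ℝ (Fin n)) (C : ℝ)
      (u : EuclideanSpace ℝ (Fin n) → EuclideanSpace ℝ (Fin n))
      (G : Fin n → EuclideanSpace ℝ (Fin n) → EuclideanSpace ℝ (Fin n)),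
      0 < C ∧ (∀ x y z, ‖Q x y z‖ ≤ C * ∑ i, ‖z i‖ ^ 2) ∧
      (∃ a : EuclideanSpace ℝ (Fin n) → EuclideanSpace ℝ (Fin n), Measurable a ∧
        ∀ x y z, Q x y z = (∑ i, ‖z i‖ ^ 2) • a x) ∧
      IsWeakSolution Q u G ∧
      (∀ p : ℝ, 2 ≤ p → p < n → MemW p u G ∧
        ∀ x₀ ∈ B₁ n, Tendsto (fun r : ℝ => Morrey p G x₀ r) (𝓝[>] 0) (𝓝 0)) ∧
      ¬ IsHolderHalf u := by
  obtain ⟨m, rfl⟩ : ∃ m, n = m + 3 := ⟨n - 3, by omega⟩
  obtain ⟨C, hC, hb⟩ := Q175.BB.aa_bdd (m := m)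
  have hm : (0:ℝ) ≤ m := Nat.cast_nonneg m
  have hc : ((m + 3 : ℕ) : ℝ) = (m : ℝ) + 3 := by push_cast; ring
  have hW : ∀ p : ℝ, 2 ≤ p → p < (m : ℝ) + 3 →
      MemW (n := m + 3) (k := m + 3) p (Q175.BB.uu m) (fun i => gradient (Q175.BB.us m i)) := by
    intro p hp hpn i
    exact ⟨Q175.BB.us_memLp i _, Q175.BB.grad_memLp i hp hpn, fun φ hφ e => Q175.BB.weak_grad i hφ e⟩
  refine ⟨fun x _ z => (∑ i, ‖z i‖ ^ 2) • Q175.BB.aa m x, C, Q175.BB.uu m, fun i => gradient (Q175.BB.us m i), hC, ?_,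
    ⟨Q175.BB.aa m, Q175.BB.aa_meas, fun _ _ _ => rfl⟩, ⟨hW 2 le_rfl (by linarith), ?_⟩, ?_, Q175.BB.not_hoelder⟩
  · intro x y z
    have h0 : 0 ≤ ∑ i, ‖z i‖ ^ 2 := Finset.sum_nonneg fun _ _ => by positivity
    rw [norm_smul, Real.norm_eq_abs, abs_of_nonneg h0, mul_comm]
    exact mul_le_mul_of_nonneg_right (hb x) h0
  · intro Φ hΦ
    exact Q175.BB.weak_form Φ hΦ
  · intro p hp hpn
    rw [hc] at hpn
    refine ⟨hW p hp hpn, fun x₀ hx₀ => ?_⟩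
    have hx1 : ‖x₀‖ < 1 := by simpa [B₁] using hx₀
    unfold Morrey
    rw [hc]
    by_cases h0 : x₀ = 0
    · rw [h0]
      exact Q175.BB.morrey_zero hp hpn
    · exact Q175.BB.morrey_ne hp h0 hx1

end Pool.Agent.Results.MP_105042_an.SingularPoint
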